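import Mathlib
import Pool.Agent.V5helper19.PL.MAJ0

set_option autoImplicit false

/-!
(MIN) of project EG: a band-limited minorant of `exp(-2Vx)` on `x > 0`, with an explicit transform.
-/

namespace Pool.Agent.V5helper1.EG

open MeasureTheory Filter Topology Complex Set
open Pool.Agent.V5helper19.PL

lemma sinc_sq (u : ℝ) : u ^ 2 * Real.sinc u ^ 2 = Real.sin u ^ 2 := by
  by_cases h : u = 0
  · subst h; simp
  · rw [Real.sinc_of_ne_zero h]
    field_simp

/-- the kernel decays like `u^(-2)` -/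
lemma KR_decay {R : ℝ} (hR : 0 < R) (u : ℝ) : u ^ 2 * KR R u ≤ 2 / (Real.pi * R) := by
  have hpi := Real.pi_pos
  have h1 := sinc_sq (R * u / 2)
  have h2 : u ^ 2 * KR R u = 2 / (Real.pi * R) * ((R * u / 2) ^ 2 * Real.sinc (R * u / 2) ^ 2) := by
    unfold KR
    field_simp
  rw [h2, h1]
  have h3 : Real.sin (R * u / 2) ^ 2 ≤ 1 := Real.sin_sq_le_one _
  have h4 : 0 < 2 / (Real.pi * R) := by positivity
  nlinarith

lemma KR_integrable {R : ℝ} (hR : 0 < R) : Integrable (KR R) := by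
  have hpi := Real.pi_pos
  have hint : Integrable (fun t : ℝ => Real.sinc (Real.pi * t) ^ 2) :=
    Pool.Agent.Helper7.Simplex.OT.J26884.sinc_fourier_int
  have hc : R / (2 * Real.pi) ≠ 0 := by positivity
  have h1 := (hint.comp_mul_left' hc).const_mul (R / (2 * Real.pi))
  refine h1.congr (Eventually.of_forall fun u => ?_)
  simp only [KR]
  congr 3
  field_simp

lemma KR_total {R : ℝ} (hR : 0 < R) : ∫ u : ℝ, KR R u = 1 := by
  have hpi := Real.pi_pos
  have h1 : ∫ t : ℝ, Real.sinc (Real.pi * t) ^ 2 = 1 := by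
    have := (Pool.Agent.Helper7.Simplex.OT.J26884.sinc_fourier 0).2
    simpa using this
  have hc : 0 < R / (2 * Real.pi) := by positivity
  have h2 := Measure.integral_comp_mul_left (fun t : ℝ => Real.sinc (Real.pi * t) ^ 2)
    (R / (2 * Real.pi))
  rw [h1, abs_of_pos (inv_pos.2 hc), smul_eq_mul, mul_one] at h2
  have h3 : ∫ u : ℝ, KR R u = R / (2 * Real.pi) * ∫ u : ℝ, Real.sinc (Real.pi * (R / (2 * Real.pi) * u)) ^ 2 := by
    rw [← integral_const_mul]
    refine integral_congr_ae (Eventually.of_forall fun u => ?_)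
    simp only [KR]
    congr 3
    field_simp
  rw [h3, h2, mul_inv_cancel₀ hc.ne']

/-- the correction -/
noncomputable def PP (x : ℝ) : ℝ := KR 1 x + KR 1 (x + Real.pi)

lemma PP_ge (x : ℝ) : 1 / (Real.pi ^ 3 * (1 + x ^ 2)) ≤ PP x := by
  have hpi := Real.pi_pos
  have h1 := sinc_sq (x / 2)
  have h2 := sinc_sq ((x + Real.pi) / 2)
  have h3 : Real.sin ((x + Real.pi) / 2) = Real.cos (x / 2) := by
    rw [add_div, Real.sin_add_pi_div_two]
  rw [h3] at h2
  have h4 := Real.sin_sq_add_cos_sq (x / 2)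
  have hs1 : 0 ≤ Real.sinc (x / 2) ^ 2 := sq_nonneg _
  have hs2 : 0 ≤ Real.sinc ((x + Real.pi) / 2) ^ 2 := sq_nonneg _
  have hpi3 : 3 < Real.pi := Real.pi_gt_three
  -- both denominators are at most `Q`
  have hp2 : 9 ≤ Real.pi ^ 2 := by nlinarith
  have hp3 := mul_nonneg (sub_nonneg.2 hp2) (sq_nonneg x)
  have hQ1 : (x / 2) ^ 2 ≤ Real.pi ^ 2 / 2 * (1 + x ^ 2) := by
    nlinarith [sq_nonneg x, sq_nonneg (Real.pi)]
  have hQ2 : ((x + Real.pi) / 2) ^ 2 ≤ Real.pi ^ 2 / 2 * (1 + x ^ 2) := by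
    nlinarith [sq_nonneg (x - Real.pi), sq_nonneg x]
  have h5 : 1 ≤ Real.pi ^ 2 / 2 * (1 + x ^ 2) * (Real.sinc (x / 2) ^ 2 + Real.sinc ((x + Real.pi) / 2) ^ 2) := by
    have e1 := mul_le_mul_of_nonneg_right hQ1 hs1
    have e2 := mul_le_mul_of_nonneg_right hQ2 hs2
    nlinarith
  have h6 : PP x = 1 / (2 * Real.pi) * (Real.sinc (x / 2) ^ 2 + Real.sinc ((x + Real.pi) / 2) ^ 2) := by
    unfold PP KR
    rw [one_mul, one_mul]
    ring
  rw [h6, div_le_iff₀ (by positivity)]
  have h7 : 1 / (2 * Real.pi) * (Real.sinc (x / 2) ^ 2 + Real.sinc ((x + Real.pi) / 2) ^ 2) *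
      (Real.pi ^ 3 * (1 + x ^ 2)) = Real.pi ^ 2 / 2 * (1 + x ^ 2) *
        (Real.sinc (x / 2) ^ 2 + Real.sinc ((x + Real.pi) / 2) ^ 2) := by
    field_simp
  rw [h7]
  exact h5

/-- the transform of the correction -/
noncomputable def pq (ξ : ℝ) : ℂ :=
  ((1 / (2 * Real.pi) * tn ξ : ℝ) : ℂ) * (1 + Complex.exp (((ξ * Real.pi : ℝ) : ℂ) * I))

lemma pq_cont : Continuous pq := by
  unfold pq
  have h1 := tn_cont
  fun_prop

lemma pq_zero_of {ξ : ℝ} (h : 1 ≤ |ξ|) : pq ξ = 0 := by
  unfold pq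
  rw [tn_zero h]
  simp

lemma PP_eq {R : ℝ} (hR : 1 ≤ R) (x : ℝ) : ((PP x : ℝ) : ℂ) =
    ∫ ξ in Icc (-R) R, pq ξ * Complex.exp (((ξ * x : ℝ) : ℂ) * I) := by
  have hset : ∀ f : ℝ → ℂ, (∀ ξ, 1 ≤ |ξ| → f ξ = 0) →
      ∫ ξ in Icc (-R) R, f ξ = ∫ ξ in Icc (-1 : ℝ) 1, f ξ := by
    intro f hf
    refine setIntegral_eq_of_subset_of_forall_sdiff_eq_zero measurableSet_Icc
      (Icc_subset_Icc (by linarith) hR) fun ξ hξ => hf ξ ?_
    by_contra hc
    push Not at hc
    rw [abs_lt] at hc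
    exact hξ.2 ⟨hc.1.le, hc.2.le⟩
  rw [hset _ fun ξ h => by rw [pq_zero_of h, zero_mul]]
  unfold PP
  rw [ofReal_add, KR_eq one_pos, KR_eq one_pos, ← integral_const_mul, ← integral_const_mul,
    ← integral_add]
  · refine integral_congr_ae (Eventually.of_forall fun ξ => ?_)
    simp only [pq, div_one]
    have e1 : Complex.exp (((ξ * (x + Real.pi) : ℝ) : ℂ) * I) =
        Complex.exp (((ξ * Real.pi : ℝ) : ℂ) * I) * Complex.exp (((ξ * x : ℝ) : ℂ) * I) := by
      rw [← Complex.exp_add]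
      congr 1
      push_cast
      ring
    rw [e1]
    push_cast
    ring
  · apply Continuous.integrableOn_Icc
    have h1 := tn_cont
    fun_prop
  · apply Continuous.integrableOn_Icc
    have h1 := tn_cont
    fun_prop

/-- the upper bound for the convolution -/
lemma mj_le {V η R : ℝ} (hV : 0 < V) (hR : 0 < R) (hη : 0 < η) (x : ℝ) :
    mj V (Real.exp (-(2 * V * η))) (-η) R x ≤ (if 0 < x then Real.exp (-(2 * V * x)) else 0) +
      2 * (2 + 1 / η ^ 2 + 4 / (V ^ 2 * η ^ 2)) / (Real.pi * R * V) / (1 + x ^ 2) := by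
  have hpi := Real.pi_pos
  set f : ℝ := if 0 < x then Real.exp (-(2 * V * x)) else 0 with hf
  have hf0 : 0 ≤ f := by
    rw [hf]; split_ifs
    · exact (Real.exp_pos _).le
    · exact le_rfl
  set K0 : ℝ := 2 + 1 / η ^ 2 + 4 / (V ^ 2 * η ^ 2) with hK0
  have hK00 : 0 < K0 := by positivity
  -- the pointwise bound
  have hpt : ∀ y, η < y → Real.exp (-(2 * V * η)) * Real.exp (-(2 * V * y)) * KR R (x - y) ≤
      f * KR R (x - y) + 2 * K0 / (Real.pi * R) / (1 + x ^ 2) * Real.exp (-(V * y)) := by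
    intro y hy
    have hy0 : 0 < y := hη.trans hy
    have hk := KR_nonneg hR (x - y)
    have hfar0 : 0 ≤ 2 * K0 / (Real.pi * R) / (1 + x ^ 2) * Real.exp (-(V * y)) := by positivity
    by_cases hnear : |x - y| < η
    · have hx : 0 < x := by
        rw [abs_lt] at hnear
        linarith
      have h1 : Real.exp (-(2 * V * η)) * Real.exp (-(2 * V * y)) ≤ f := by
        rw [hf, if_pos hx, ← Real.exp_add]
        apply Real.exp_le_exp.2
        rw [abs_lt] at hnear
        nlinarith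
      have h2 := mul_le_mul_of_nonneg_right h1 hk
      linarith
    · push Not at hnear
      have h1 : η ^ 2 ≤ (x - y) ^ 2 := by
        rw [← sq_abs (x - y)]
        exact pow_le_pow_left₀ hη.le hnear 2
      have h2 := KR_decay hR (x - y)
      have h3 : Real.exp (-(2 * V * η)) ≤ 1 := by
        rw [Real.exp_le_one_iff]
        have : 0 < 2 * V * η := by positivity
        linarith
      -- `(1 + x²) ≤ (x-y)² (2 + (1 + 2y²)/η²)`
      have h4 : 1 + x ^ 2 ≤ (x - y) ^ 2 * (2 + (1 + 2 * y ^ 2) / η ^ 2) := by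
        have h5 : 1 + 2 * y ^ 2 ≤ (x - y) ^ 2 * ((1 + 2 * y ^ 2) / η ^ 2) := by
          rw [mul_div_assoc', le_div_iff₀ (by positivity)]
          have : 0 ≤ 1 + 2 * y ^ 2 := by positivity
          nlinarith
        nlinarith [sq_nonneg (x - 2 * y)]
      -- `(2 + (1+2y²)/η²) exp(-2Vy) ≤ K0 exp(-Vy)`
      have h6 : (2 + (1 + 2 * y ^ 2) / η ^ 2) * Real.exp (-(2 * V * y)) ≤ K0 * Real.exp (-(V * y)) := by
        have h7 : Real.exp (-(2 * V * y)) = Real.exp (-(V * y)) * Real.exp (-(V * y)) := by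
          rw [← Real.exp_add]; congr 1; ring
        have h8 : Real.exp (-(V * y)) ≤ 1 := by
          rw [Real.exp_le_one_iff]
          have : 0 < V * y := by positivity
          linarith
        have h9 : y ^ 2 * Real.exp (-(V * y)) ≤ 2 / V ^ 2 := by
          have e1 : (V * y) ^ 2 / 2 ≤ Real.exp (V * y) := by
            have := Real.quadratic_le_exp_of_nonneg (x := V * y) (by positivity)
            have : 0 < V * y := by positivity
            linarith
          rw [Real.exp_neg, ← div_eq_mul_inv, div_le_div_iff₀ (Real.exp_pos _) (by positivity)]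
          nlinarith
        have h10 := Real.exp_pos (-(V * y))
        have h11 : (2 + (1 + 2 * y ^ 2) / η ^ 2) * Real.exp (-(V * y)) ≤ K0 := by
          have e2 : (2 + (1 + 2 * y ^ 2) / η ^ 2) * Real.exp (-(V * y)) =
              2 * Real.exp (-(V * y)) + 1 / η ^ 2 * Real.exp (-(V * y)) +
                2 / η ^ 2 * (y ^ 2 * Real.exp (-(V * y))) := by
            field_simp
            ring
          have e3 : 4 / (V ^ 2 * η ^ 2) = 2 / η ^ 2 * (2 / V ^ 2) := by
            field_simp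
            norm_num
          rw [e2, hK0, e3]
          have e4 : 0 < 1 / η ^ 2 := by positivity
          have e5 : 0 < 2 / η ^ 2 := by positivity
          have e6 := mul_le_mul_of_nonneg_left h9 e5.le
          have e7 := mul_le_mul_of_nonneg_left h8 e4.le
          linarith
        rw [h7, ← mul_assoc]
        exact mul_le_mul_of_nonneg_right h11 h10.le
      have h12 : Real.exp (-(2 * V * η)) * Real.exp (-(2 * V * y)) * KR R (x - y) ≤
          2 * K0 / (Real.pi * R) / (1 + x ^ 2) * Real.exp (-(V * y)) := by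
        rw [div_mul_eq_mul_div, le_div_iff₀ (by positivity)]
        have hE := Real.exp_pos (-(2 * V * y))
        calc Real.exp (-(2 * V * η)) * Real.exp (-(2 * V * y)) * KR R (x - y) * (1 + x ^ 2)
            ≤ 1 * Real.exp (-(2 * V * y)) * KR R (x - y) * (1 + x ^ 2) := by gcongr
          _ ≤ 1 * Real.exp (-(2 * V * y)) * KR R (x - y) *
                ((x - y) ^ 2 * (2 + (1 + 2 * y ^ 2) / η ^ 2)) := by gcongr
          _ = ((2 + (1 + 2 * y ^ 2) / η ^ 2) * Real.exp (-(2 * V * y))) * ((x - y) ^ 2 * KR R (x - y)) := by ring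
          _ ≤ (K0 * Real.exp (-(V * y))) * (2 / (Real.pi * R)) := by
              gcongr
          _ = _ := by ring
      have h13 : 0 ≤ f * KR R (x - y) := by positivity
      linarith
  -- integrate
  have hKint : Integrable (fun y : ℝ => KR R (x - y)) := (KR_integrable hR).comp_sub_left x
  have hexpint : IntegrableOn (fun y : ℝ => Real.exp (-(V * y))) (Ioi η) := by
    have h := integrableOn_exp_mul_Ioi (a := -V) (by linarith) η
    refine h.congr_fun (fun y _ => ?_) measurableSet_Ioi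
    simp only
    congr 1
    ring
  have hexp : ∫ y in Ioi η, Real.exp (-(V * y)) ≤ 1 / V := by
    have h := integral_exp_mul_Ioi (a := -V) (by linarith) η
    have e : ∫ y in Ioi η, Real.exp (-(V * y)) = ∫ y in Ioi η, Real.exp (-V * y) := by
      refine setIntegral_congr_fun measurableSet_Ioi fun y _ => ?_
      congr 1
      ring
    rw [e, h]
    rw [neg_div_neg_eq]
    apply div_le_div_of_nonneg_right _ hV.le
    rw [Real.exp_le_one_iff]
    nlinarith
  have hK1 : ∫ y in Ioi η, KR R (x - y) ≤ 1 := by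
    calc ∫ y in Ioi η, KR R (x - y) ≤ ∫ y, KR R (x - y) :=
          setIntegral_le_integral hKint (Eventually.of_forall fun y => KR_nonneg hR _)
      _ = 1 := by
          rw [integral_sub_left_eq_self (fun u => KR R u) volume x, KR_total hR]
  unfold mj
  rw [neg_neg]
  calc ∫ y in Ioi η, Real.exp (-(2 * V * η)) * Real.exp (-(2 * V * y)) * KR R (x - y)
      ≤ ∫ y in Ioi η, (f * KR R (x - y) + 2 * K0 / (Real.pi * R) / (1 + x ^ 2) * Real.exp (-(V * y))) := by
        refine setIntegral_mono_on ?_ ?_ measurableSet_Ioi fun y hy => hpt y hy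
        · have h := mj_int (A := Real.exp (-(2 * V * η))) hV hR (-η) x
          rwa [neg_neg] at h
        · exact (hKint.integrableOn.const_mul f).add (hexpint.const_mul _)
    _ = f * (∫ y in Ioi η, KR R (x - y)) +
          2 * K0 / (Real.pi * R) / (1 + x ^ 2) * ∫ y in Ioi η, Real.exp (-(V * y)) := by
        rw [integral_add (hKint.integrableOn.const_mul f) (hexpint.const_mul _),
          integral_const_mul, integral_const_mul]
    _ ≤ f * 1 + 2 * K0 / (Real.pi * R) / (1 + x ^ 2) * (1 / V) := by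
        gcongr
    _ = _ := by
        rw [mul_one]
        congr 1
        field_simp

theorem min0 : ∀ V ε : ℝ, 0 < V → 0 < ε → ∃ (R : ℝ) (φ : ℝ → ℂ) (m : ℝ → ℝ), 0 < R ∧ Continuous φ ∧
    (∀ ξ, R < |ξ| → φ ξ = 0) ∧ (∀ x, x ≤ 0 → m x ≤ 0) ∧ (∀ x, 0 < x → m x ≤ Real.exp (-(2 * V * x))) ∧
    (∀ x : ℝ, ((m x : ℝ) : ℂ) = ∫ ξ in Set.Icc (-R) R, φ ξ * Complex.exp (((ξ * x : ℝ) : ℂ) * I)) ∧
    1 / (2 * V) - ε ≤ 2 * Real.pi * (φ 0).re := by
  intro V ε hV hε
  have hpi := Real.pi_pos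
  obtain ⟨η, hη, hη2⟩ : ∃ η : ℝ, 0 < η ∧ 1 / (2 * V) - ε / 2 ≤ Real.exp (-(4 * V * η)) / (2 * V) := by
    have hc : ContinuousAt (fun η : ℝ => Real.exp (-(4 * V * η)) / (2 * V)) 0 := by
      apply Continuous.continuousAt
      fun_prop
    have h0 : 1 / (2 * V) - ε / 2 < Real.exp (-(4 * V * 0)) / (2 * V) := by
      simp only [mul_zero, neg_zero, Real.exp_zero]
      linarith
    have h1 : ∀ᶠ η in 𝓝 (0:ℝ), 1 / (2 * V) - ε / 2 < Real.exp (-(4 * V * η)) / (2 * V) :=
      hc.eventually (eventually_gt_nhds h0)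
    have h2 := (h1.filter_mono (nhdsWithin_le_nhds (s := Ioi (0:ℝ)))).and self_mem_nhdsWithin
    obtain ⟨η, h3, h4⟩ := h2.exists
    exact ⟨η, h4, h3.le⟩
  set K0 : ℝ := 2 + 1 / η ^ 2 + 4 / (V ^ 2 * η ^ 2) with hK0
  have hK00 : 0 < K0 := by positivity
  set κ : ℝ := ε / 4 with hκ
  have hκ0 : 0 < κ := by positivity
  set R : ℝ := max 1 (2 * K0 * Real.pi ^ 2 / (V * κ)) with hRdef
  have hR1 : 1 ≤ R := le_max_left _ _
  have hR : 0 < R := by linarith
  have hR2 : 2 * K0 * Real.pi ^ 2 / (V * κ) ≤ R := le_max_right _ _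
  have hkey : ∀ x : ℝ, 2 * K0 / (Real.pi * R * V) / (1 + x ^ 2) ≤ κ * PP x := by
    intro x
    have h1 := PP_ge x
    have h2 : 2 * K0 / (Real.pi * R * V) ≤ κ / Real.pi ^ 3 := by
      rw [div_le_div_iff₀ (by positivity) (by positivity)]
      rw [div_le_iff₀ (by positivity)] at hR2
      nlinarith
    calc 2 * K0 / (Real.pi * R * V) / (1 + x ^ 2) ≤ κ / Real.pi ^ 3 / (1 + x ^ 2) := by gcongr
      _ = κ * (1 / (Real.pi ^ 3 * (1 + x ^ 2))) := by field_simp
      _ ≤ _ := by gcongr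
  refine ⟨R, fun ξ => ph V (Real.exp (-(2 * V * η))) (-η) R ξ - (κ : ℂ) * pq ξ,
    fun x => mj V (Real.exp (-(2 * V * η))) (-η) R x - κ * PP x, hR, ?_, ?_, ?_, ?_, ?_, ?_⟩
  · exact (ph_cont hV).sub (continuous_const.mul pq_cont)
  · intro ξ h
    simp only
    rw [ph_zero_of hR h, pq_zero_of (by linarith)]
    simp
  · intro x hx
    have h1 := mj_le hV hR hη x
    rw [if_neg (not_lt.2 hx), zero_add] at h1
    have h2 := hkey x
    simp only
    linarith
  · intro x hx
    have h1 := mj_le hV hR hη x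
    rw [if_pos hx] at h1
    have h2 := hkey x
    simp only
    linarith
  · intro x
    rw [ofReal_sub, ofReal_mul, mj_eq hV hR, PP_eq hR1, ← integral_const_mul, ← integral_sub]
    · refine integral_congr_ae (Eventually.of_forall fun ξ => ?_)
      simp only
      ring
    · apply Continuous.integrableOn_Icc
      have := ph_cont (A := Real.exp (-(2 * V * η))) (η := -η) (R := R) hV
      fun_prop
    · apply Continuous.integrableOn_Icc
      have := pq_cont
      fun_prop
  · have h1 : tn 0 = 1 := by unfold tn; simp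
    have h2 : (ph V (Real.exp (-(2 * V * η))) (-η) R 0 - (κ : ℂ) * pq 0) =
        ((1 / (2 * Real.pi) * (Real.exp (-(4 * V * η)) / (2 * V)) - κ * (1 / Real.pi) : ℝ) : ℂ) := by
      unfold ph pq
      rw [zero_div, h1]
      have e1 : Complex.exp ((2 * (V:ℂ) + ((0:ℝ):ℂ) * I) * ((-η : ℝ) : ℂ)) =
          ((Real.exp (-(2 * V * η)) : ℝ) : ℂ) := by
        rw [ofReal_exp]
        congr 1
        push_cast
        ring
      have e2 : Real.exp (-(4 * V * η)) = Real.exp (-(2 * V * η)) * Real.exp (-(2 * V * η)) := by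
        rw [← Real.exp_add]; congr 1; ring
      rw [e1, e2]
      push_cast
      simp only [zero_mul, add_zero, Complex.exp_zero]
      have hVc : (V : ℂ) ≠ 0 := by exact_mod_cast hV.ne'
      have hpc : (Real.pi : ℂ) ≠ 0 := by exact_mod_cast hpi.ne'
      field_simp
      ring
    simp only
    rw [h2, ofReal_re]
    have h3 : 2 * Real.pi * (1 / (2 * Real.pi) * (Real.exp (-(4 * V * η)) / (2 * V)) - κ * (1 / Real.pi)) =
        Real.exp (-(4 * V * η)) / (2 * V) - 2 * κ := by
      field_simp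
    rw [h3]
    linarith

end Pool.Agent.V5helper1.EG
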