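import Pool.Agent.V5helper51.EG.Stm
import Pool.Agent.V5helper1.EG.MIN0

set_option autoImplicit false

namespace Pool.Agent.V5helper1.EG

open Pool.Agent.V5helper51.EG

theorem t_MIN : S_MIN := min0

end Pool.Agent.V5helper1.EG
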